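import Pool.Agent.Q155.HS.Tra

/-!
# The Hilbert-Smith conjecture for homeomorphisms with critical energy along one sequence of scales

Let `n ≥ 1`, let `X` be a metric space in which the points with a neighbourhood bi-Lipschitz
equivalent to an open subset of `ℝⁿ` form a dense connected set (for example an Alexandrov space of
dimension `n`) and let `s j > 0` be any sequence of scales. Every locally compact group which acts
faithfully and continuously on `X`, such that for every element `g` near the identity the sum of
`diam (g B)^n` over balls `B` of radius `c s j` with `s j`-separated centres is `o(1 / s j)` for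
`j → ∞`, is a Lie group. Nothing is required at the other scales, the rate at which the energies
`s j ∑ diam (g B)^n` tend to zero is arbitrary and depends on `g`. For Hölder continuous maps this
is the little-`o` condition at the exponent `(n - 1) / n`, along the scales `s j`.

Proof. By Baire's theorem the energies are bounded, uniformly on a coset of an open subgroup. For
the average `F` over the closure of the powers of an element, dominated convergence gives one scale
with small energy for every precision (this needs no uniform rate), so `F` maps almost every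
hyperplane to a null set and almost every fibre is totally disconnected. The degree argument of the
starting library (`Pool/Agent/Y489/SP/`) applies to such averages.
-/

set_option autoImplicit false

namespace Pool.Agent.Results.MP_afaf30_gt.CriticalEnergyAlongScales

open Set Metric Filter Topology

/-- A bi-Lipschitz chart with values in Euclidean `n`-space. -/
def BiLip {X : Type} [MetricSpace X] (n : ℕ) (U : Set X) (ψ : X → EuclideanSpace ℝ (Fin n))
    (L : ℝ) : Prop :=
  IsOpen U ∧ IsOpen (ψ '' U) ∧
    ∀ a ∈ U, ∀ b ∈ U, dist (ψ a) (ψ b) ≤ L * dist a b ∧ dist a b ≤ L * dist (ψ a) (ψ b)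

/-- The points with a neighbourhood which is bi-Lipschitz equivalent to an open subset of Euclidean
`n`-space. -/
def Reg (n : ℕ) (X : Type) [MetricSpace X] : Set X :=
  {x | ∃ (U : Set X) (ψ : X → EuclideanSpace ℝ (Fin n)) (L : ℝ), x ∈ U ∧ BiLip n U ψ L}

/-- For every compact set `C` of regular points and every `c`, the energies
`s j * ∑ diam (f (B(a, c * s j) ∩ C)) ^ n`, the sum over any `s j`-separated points `a` of `C`, tend
to zero for `j → ∞`. -/
def CriticalEnergy (n : ℕ) (s : ℕ → ℝ) {X : Type} [MetricSpace X] (f : X → X) : Prop :=
  ∀ C ⊆ Reg n X, IsCompact C → ∀ c : ℕ, ∀ ε : ℝ, 0 < ε → ∀ᶠ j in atTop, ∀ A : Finset X,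
    (∀ a ∈ A, a ∈ C) → (∀ a ∈ A, ∀ b ∈ A, a ≠ b → s j ≤ dist a b) →
    s j * ∑ a ∈ A, Metric.diam (f '' (closedBall a (c * s j) ∩ C)) ^ n ≤ ε

/-- The Hilbert-Smith conjecture for homeomorphisms whose energies tend to zero along one sequence of
scales. -/
theorem result :
    ∀ (n : ℕ), 1 ≤ n → ∀ (X : Type) [MetricSpace X],
      Dense (Reg n X) → IsPreconnected (Reg n X) → ∀ s : ℕ → ℝ, (∀ j, 0 < s j) →
      ∀ (G : Type) [Group G] [TopologicalSpace G] [IsTopologicalGroup G] [LocallyCompactSpace G]
        [MulAction G X] [ContinuousSMul G X] [FaithfulSMul G X],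
        (∀ᶠ g in 𝓝 (1 : G), CriticalEnergy n s (fun x : X => g • x)) →
        ∃ (m : ℕ) (_ : ChartedSpace (EuclideanSpace ℝ (Fin m)) G),
          LieGroup (modelWithCornersSelf ℝ (EuclideanSpace ℝ (Fin m)))
            ((⊤ : ℕ∞) : WithTop ℕ∞) G := by
  intro n hn X _ hd hc s hs G _ _ _ _ _ _ _ h
  exact Pool.Agent.Q155.HS.lie_seq (S := Pool.Agent.Y485.HS.Reg n X) hn
    Pool.Agent.Y485.HS.isOpen_Reg subset_rfl hd hc hs h

end Pool.Agent.Results.MP_afaf30_gt.CriticalEnergyAlongScales
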