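import Pool.Agent.Q155.HS.App

/-!
# The Hilbert-Smith conjecture for groups which are rapidly approximated by Lipschitz maps

Let `n ≥ 1` and let `X` be a metric space in which the points with a neighbourhood bi-Lipschitz
equivalent to an open subset of `ℝⁿ` form a dense connected set (for example an Alexandrov space of
dimension `n`). Let `G` be a locally compact group which acts faithfully and continuously on `X`.
Suppose that for a neighbourhood `V` of the identity, every compact set `C` of regular points and
every `ε > 0` there is `L ≥ 1` such that every element of `V` is on `C` at distance at most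
`ε / L^(n-1)` from an `L`-Lipschitz map. Then `G` is a Lie group.

The elements of `G` need not be Lipschitz or Hölder. Example: if `G` is the closure of the powers of
one bi-Lipschitz homeomorphism `T` with constant `Λ` and the iterates `T^(m k)`, `k ∈ ℤ`, of some
multiple `m` are closer to the identity than `ε Λ^(-(n-1) m)`, for every `ε`, then `G` is finite:
there is no `p`-adic action generated by a bi-Lipschitz homeomorphism whose orbits close up faster
than the Lipschitz constants of the iterates grow (powers `T^j`, `j < m`, are the approximating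
maps).

Proof. At the scale `δ / L`, `δ = ε / L^(n-1)`, all elements have small discrete energy; so the
average over a subgroup maps almost every hyperplane to a null set, and the degree argument of the
starting library (`Pool/Agent/Y489/SP/`) applies.
-/

set_option autoImplicit false

namespace Pool.Agent.Results.MP_afaf30_gt.FastLipschitzApproximation

open Set Metric Filter Topology

/-- A bi-Lipschitz chart with values in Euclidean `n`-space. -/
def BiLip {X : Type} [MetricSpace X] (n : ℕ) (U : Set X) (ψ : X → EuclideanSpace ℝ (Fin n))
    (L : ℝ) : Prop :=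
  IsOpen U ∧ IsOpen (ψ '' U) ∧
    ∀ a ∈ U, ∀ b ∈ U, dist (ψ a) (ψ b) ≤ L * dist a b ∧ dist a b ≤ L * dist (ψ a) (ψ b)

/-- The points with a neighbourhood which is bi-Lipschitz equivalent to an open subset of Euclidean
`n`-space. -/
def Reg (n : ℕ) (X : Type) [MetricSpace X] : Set X :=
  {x | ∃ (U : Set X) (ψ : X → EuclideanSpace ℝ (Fin n)) (L : ℝ), x ∈ U ∧ BiLip n U ψ L}

/-- For every `ε > 0` there is a constant `L ≥ 1` such that every element of `V` is at distance at
most `ε / L ^ (n - 1)` on `C` from a map `f` with Lipschitz constant `L` on `C`. -/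
def LipApprox (n : ℕ) {X : Type} [MetricSpace X] {G : Type} [Group G] [MulAction G X] (V : Set G)
    (C : Set X) : Prop :=
  ∀ ε : ℝ, 0 < ε → ∃ L : ℝ, 1 ≤ L ∧ ∀ g ∈ V, ∃ f : X → X,
    (∀ x ∈ C, ∀ y ∈ C, dist (f x) (f y) ≤ L * dist x y) ∧
    ∀ x ∈ C, dist (g • x) (f x) * L ^ (n - 1) ≤ ε

/-- The Hilbert-Smith conjecture for groups whose elements are approximated by `L`-Lipschitz maps up
to an error `o(L^(-(n-1)))` along a sequence of constants `L`. -/
theorem result :
    ∀ (n : ℕ), 1 ≤ n → ∀ (X : Type) [MetricSpace X],
      Dense (Reg n X) → IsPreconnected (Reg n X) →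
      ∀ (G : Type) [Group G] [TopologicalSpace G] [IsTopologicalGroup G] [LocallyCompactSpace G]
        [MulAction G X] [ContinuousSMul G X] [FaithfulSMul G X],
        (∃ V ∈ 𝓝 (1 : G), ∀ C ⊆ Reg n X, IsCompact C → LipApprox n V C) →
        ∃ (m : ℕ) (_ : ChartedSpace (EuclideanSpace ℝ (Fin m)) G),
          LieGroup (modelWithCornersSelf ℝ (EuclideanSpace ℝ (Fin m)))
            ((⊤ : ℕ∞) : WithTop ℕ∞) G := by
  rintro n hn X _ hd hc G _ _ _ _ _ _ _ ⟨V, hV, h⟩
  exact Pool.Agent.Q155.HS.lie_app (S := Pool.Agent.Y485.HS.Reg n X) hn
    Pool.Agent.Y485.HS.isOpen_Reg subset_rfl hd hc hV h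

end Pool.Agent.Results.MP_afaf30_gt.FastLipschitzApproximation
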