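import Pool.Agent.Q31.HS.EMain

/-!
# The Hilbert-Smith conjecture for homeomorphisms which are Sobolev near the points

Let `X` be a metric space of dimension `n ≥ 2` (for example an Alexandrov space or a manifold) and
`R` a dense open set of regular points with finitely many components. Every locally compact group
which acts faithfully and continuously on `X` is a Lie group if every element near the identity
satisfies one of the following conditions at each point `x` of `R` except countably many: it is of
class `W^{1,q}` near `x` for some `q > n - 1` (in Hajlasz form), or its discrete energy of order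
`n - 1` near `x` is `O(1/r)` at scale `r`, or its discrete energy of order `n` near `x` is
`O(η(O(r))/r)` with a fixed nondecreasing gauge `η`, `η(r) → 0` as `r → 0`. The exponent, the
constants and the neighbourhood may depend on the point and on the element, and nothing is assumed
about the elements on the closed set `X \ R`.

Proof (files in `Pool/Agent/Q31/HS/` and the files of projects HS, PH, SP of the starting library,
helpers 485, 489, 662 with their teams; the case of one exponent for all points and `R` connected
without exceptional points is by helper155). Sobolev functions and functions with bounded energy of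
order `n - 1` have energy of order `n` with a gauge which depends on the common modulus of
continuity of a compact group. Baire's theorem on the closed set of points near which no open
subgroup acts trivially makes the constants of the energy estimates uniform near one point of this
set, with one coset of an open subgroup; the averages over a subgroup then have small energy, map
all pieces of generic hyperplanes to null sets and have totally disconnected fibres, off a
countable set and off the points near which an open subgroup acts trivially, and the degree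
argument of project SP applies.
-/

set_option autoImplicit false

namespace Pool.Agent.Results.MP_afaf30_gt.LocalSobolev

open MeasureTheory Set Metric Filter Topology
open scoped ENNReal

/-- A bi-Lipschitz chart with values in Euclidean `n`-space. -/
def BiLip {X : Type} [MetricSpace X] (n : ℕ) (U : Set X) (ψ : X → EuclideanSpace ℝ (Fin n))
    (L : ℝ) : Prop :=
  IsOpen U ∧ IsOpen (ψ '' U) ∧
    ∀ a ∈ U, ∀ b ∈ U, dist (ψ a) (ψ b) ≤ L * dist a b ∧ dist a b ≤ L * dist (ψ a) (ψ b)

/-- The points with a neighbourhood which is bi-Lipschitz equivalent to an open subset of Euclidean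
`n`-space. -/
def Reg (n : ℕ) (X : Type) [MetricSpace X] : Set X :=
  {x | ∃ (U : Set X) (ψ : X → EuclideanSpace ℝ (Fin n)) (L : ℝ), x ∈ U ∧ BiLip n U ψ L}

/-- `R` is the union of finitely many connected (or empty) sets. -/
def FinitelyManyPieces {X : Type} [MetricSpace X] (R : Set X) : Prop :=
  ∃ (m : ℕ) (C : Fin m → Set X), (∀ i, IsPreconnected (C i)) ∧ R = ⋃ i, C i

/-- `η` is nonnegative and nondecreasing on `[0, ∞)`, and `η(r) → 0` as `r → 0` (for nondecreasing
functions it is enough that the lower limit is `0`). -/
def Gauge (η : ℝ → ℝ) : Prop :=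
  (∀ r, 0 ≤ r → 0 ≤ η r) ∧ (∀ r s, 0 ≤ r → r ≤ s → η r ≤ η s) ∧
    ∀ ε : ℝ, 0 < ε → ∃ r : ℝ, 0 < r ∧ r < ε ∧ η r ≤ ε

/-- `f` is of Sobolev class `W^{1,q}` with some `q > n - 1` near the point `x`, in the form of
Hajlasz: `d(fa, fb) ≤ d(a, b) (g(a) + g(b))` on a neighbourhood `C` of `x`, and `g^q` has finite
integral over `C` for the `n`-dimensional Hausdorff measure. -/
def SobAt (n : ℕ) {X : Type} [MetricSpace X] [MeasurableSpace X] [BorelSpace X] (f : X → X)
    (x : X) : Prop :=
  ∃ C ∈ 𝓝 x, ∃ q : ℝ, (n : ℝ) - 1 < q ∧ ∃ g : X → ℝ≥0∞, Measurable g ∧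
    (∀ a ∈ C, ∀ b ∈ C, edist (f a) (f b) ≤ edist a b * (g a + g b)) ∧
    ∫⁻ a in C, g a ^ q ∂(Measure.hausdorffMeasure (n : ℝ)) < ∞

/-- The discrete energy of order `m` of `f` near `x` at scale `r` is at most `N η(N r) / r`: on some
compact neighbourhood `C` of `x`, for every `c`, the sum of `diam(f(B(a, c r) ∩ C))^m` over the
points `a` of an `r`-separated subset of `C`. -/
def EnergyAt (m : ℕ) (η : ℝ → ℝ) {X : Type} [MetricSpace X] (f : X → X) (x : X) : Prop :=
  ∃ C ∈ 𝓝 x, IsCompact C ∧ ∀ c : ℕ, ∃ (N : ℕ) (δ : ℝ), 0 < δ ∧ ∀ r : ℝ, 0 < r → r ≤ δ →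
    ∀ A : Finset X, (∀ a ∈ A, a ∈ C) → (∀ a ∈ A, ∀ b ∈ A, a ≠ b → r ≤ dist a b) →
      r * ∑ a ∈ A, Metric.diam (f '' (closedBall a (c * r) ∩ C)) ^ m ≤ N * η (N * r)

/-- The Hilbert-Smith conjecture for homeomorphisms which are Sobolev with exponents above `n - 1`,
or have controlled energy, near the points of a dense open set `R` except countably many. -/
theorem result :
    ∀ (n : ℕ), 2 ≤ n → ∀ (X : Type) [MetricSpace X] [MeasurableSpace X] [BorelSpace X]
      (R : Set X), IsOpen R → Dense R → R ⊆ Reg n X → FinitelyManyPieces R →
      ∀ η : ℝ → ℝ, Gauge η →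
      ∀ (G : Type) [Group G] [TopologicalSpace G] [IsTopologicalGroup G] [LocallyCompactSpace G]
        [MulAction G X] [ContinuousSMul G X] [FaithfulSMul G X],
        (∀ᶠ g in 𝓝 (1 : G), {x : X | x ∈ R ∧ ¬ (SobAt n (fun x : X => g • x) x ∨
          EnergyAt (n - 1) (fun _ => 1) (fun x : X => g • x) x ∨
          EnergyAt n η (fun x : X => g • x) x)}.Countable) →
        ∃ (m : ℕ) (_ : ChartedSpace (EuclideanSpace ℝ (Fin m)) G),
          LieGroup (modelWithCornersSelf ℝ (EuclideanSpace ℝ (Fin m)))
            ((⊤ : ℕ∞) : WithTop ℕ∞) G := by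
  intro n hn X _ _ _ R hR hd hRs hc η hη G _ _ _ _ _ _ _ h
  exact Pool.Agent.Q31.HS.lie_mainE hn ⟨hη.1, hη.2.1, hη.2.2⟩ hR hRs hd hc h

end Pool.Agent.Results.MP_afaf30_gt.LocalSobolev
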