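import Pool.Agent.Q31.HS.Holder

/-!
# The Hilbert-Smith conjecture for pointwise Hoelder homeomorphisms

Let `X` be a metric space of dimension `n` (for example an Alexandrov space or a manifold) and `R` a
dense open set of regular points with finitely many components. Every locally compact group which
acts faithfully and continuously on `X`, such that every element near the identity is Hoelder with
some exponent above `1 - 1/n` at all points of `R` except countably many, is a Lie group; the exponent
and the constant may depend on the point and on the element. More generally the modulus of continuity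
at the point may be `O(ω)` for a fixed `ω` with `liminf ω(r)^n / r^(n-1) = 0`. Nothing is assumed about
the elements on the closed set `X \ R`.

Proof (files in `Pool/Agent/Q31/HS/` and the files of projects HS, PH, SP of the starting library,
helpers 485 and 489 with their teams). Baire's theorem on the closed set of the points near which no
open subgroup acts trivially gives such a point `y` and a coset `h K` whose maps have the modulus
uniformly at all points near `y`, off a countable set and off the points near which an open subgroup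
acts trivially. Let `P` be the closure of the powers of an element `g` of `p`-power type of a small open
subgroup. The average `F` of `h P` has the modulus at all points near `y` except countably
many, so that it maps all hyperplane pieces to null sets, and almost all its fibres are
totally disconnected. The map `h⁻¹ ∘ F` is close to the identity and invariant under `g`; by the
degree argument of project SP (a fibre without fixed points of `g` would be the union of `p` clopen
sets permuted cyclically by `g`) a dense set of points near `y` is fixed by `g`.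
-/

set_option autoImplicit false

namespace Pool.Agent.Results.MP_afaf30_gt.PointwiseHolder

open Set Metric Filter Topology

/-- A bi-Lipschitz chart with values in Euclidean `n`-space. -/
def BiLip {X : Type} [MetricSpace X] (n : ℕ) (U : Set X) (ψ : X → EuclideanSpace ℝ (Fin n))
    (L : ℝ) : Prop :=
  IsOpen U ∧ IsOpen (ψ '' U) ∧
    ∀ a ∈ U, ∀ b ∈ U, dist (ψ a) (ψ b) ≤ L * dist a b ∧ dist a b ≤ L * dist (ψ a) (ψ b)

/-- The points with a neighbourhood which is bi-Lipschitz equivalent to an open subset of Euclidean
`n`-space. -/
def Reg (n : ℕ) (X : Type) [MetricSpace X] : Set X :=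
  {x | ∃ (U : Set X) (ψ : X → EuclideanSpace ℝ (Fin n)) (L : ℝ), x ∈ U ∧ BiLip n U ψ L}

/-- `R` is the union of finitely many connected (or empty) sets. -/
def FinitelyManyPieces {X : Type} [MetricSpace X] (R : Set X) : Prop :=
  ∃ (m : ℕ) (C : Fin m → Set X), (∀ i, IsPreconnected (C i)) ∧ R = ⋃ i, C i

/-- `ω` is nonnegative and nondecreasing on `[0, ∞)`, and `liminf ω(r)^n / r^(n-1) = 0` as
`r → 0`. -/
def Modulus (n : ℕ) (ω : ℝ → ℝ) : Prop :=
  (∀ r, 0 ≤ r → 0 ≤ ω r) ∧ (∀ r s, 0 ≤ r → r ≤ s → ω r ≤ ω s) ∧
    ∀ ε : ℝ, 0 < ε → ∃ r : ℝ, 0 < r ∧ r < ε ∧ ω r ^ n * r ≤ ε * r ^ n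

/-- `dist (f y) (f x) ≤ N ω(N dist(y, x))` for all `y` near `x`, with some `N`. -/
def OAt (ω : ℝ → ℝ) {X : Type} [MetricSpace X] (f : X → X) (x : X) : Prop :=
  ∃ (N : ℕ) (δ : ℝ), 0 < δ ∧ ∀ y, dist y x < δ → dist (f y) (f x) ≤ N * ω (N * dist y x)

/-- `f` is Hoelder at the point `x` with some exponent above `1 - 1/n`. -/
def HolderAt (n : ℕ) {X : Type} [MetricSpace X] (f : X → X) (x : X) : Prop :=
  ∃ α N δ : ℝ, 1 - 1 / (n : ℝ) < α ∧ 0 < δ ∧ ∀ y, dist y x < δ →
    dist (f y) (f x) ≤ N * dist y x ^ α

/-- The Hilbert-Smith conjecture for homeomorphisms which are Hoelder with exponents above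
`1 - 1/n`, or have a fixed modulus, at the points of a dense open set `R` except countably many. -/
theorem result :
    ∀ (n : ℕ), 1 ≤ n → ∀ (X : Type) [MetricSpace X] (R : Set X),
      IsOpen R → Dense R → R ⊆ Reg n X → FinitelyManyPieces R →
      ∀ (G : Type) [Group G] [TopologicalSpace G] [IsTopologicalGroup G] [LocallyCompactSpace G]
        [MulAction G X] [ContinuousSMul G X] [FaithfulSMul G X],
        ((∀ᶠ g in 𝓝 (1 : G), {x : X | x ∈ R ∧ ¬ HolderAt n (fun x : X => g • x) x}.Countable) ∨
          ∃ ω : ℝ → ℝ, Modulus n ω ∧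
            ∀ᶠ g in 𝓝 (1 : G), {x : X | x ∈ R ∧ ¬ OAt ω (fun x : X => g • x) x}.Countable) →
        ∃ (m : ℕ) (_ : ChartedSpace (EuclideanSpace ℝ (Fin m)) G),
          LieGroup (modelWithCornersSelf ℝ (EuclideanSpace ℝ (Fin m)))
            ((⊤ : ℕ∞) : WithTop ℕ∞) G := by
  intro n hn X _ R hR hd hRs hc G _ _ _ _ _ _ _ h
  rcases h with h | ⟨ω, ⟨h1, h2, h3⟩, h⟩
  · refine Pool.Agent.Q31.HS.lie_main hn (Pool.Agent.Q31.HS.lw_mod hn) hR hRs hd hc ?_
    filter_upwards [h] with g hg
    refine hg.mono ?_
    rintro x ⟨hx, hxn⟩
    exact ⟨hx, fun hH => hxn (Pool.Agent.Q31.HS.pwx_of_holder hn hH)⟩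
  · exact Pool.Agent.Q31.HS.lie_main hn ⟨h1, h2, h3⟩ hR hRs hd hc h

end Pool.Agent.Results.MP_afaf30_gt.PointwiseHolder
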